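import Pool.Agent.K7.H66.TD.Defs2

set_option autoImplicit false

namespace Pool.Agent.K7.H66.TD

open Finset

theorem ones_le (k x : ℕ) : ones k x ≤ k := by
  induction k with
  | zero => simp [ones]
  | succ k ih => simp only [ones]; split_ifs <;> omega

theorem testBit_low (k x y i : ℕ) (hi : i < k) (_hx : x < 2 ^ k) : (x + 2 ^ k * y).testBit i = x.testBit i := by
  have : (x + 2 ^ k * y) % 2 ^ k = x % 2 ^ k := by simp [Nat.add_mul_mod_self_left]
  have h1 : ((x + 2 ^ k * y) % 2 ^ k).testBit i = (x % 2 ^ k).testBit i := by rw [this]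
  rw [Nat.testBit_mod_two_pow, Nat.testBit_mod_two_pow] at h1
  simpa [hi] using h1

theorem testBit_high (k x y i : ℕ) (hx : x < 2 ^ k) : (x + 2 ^ k * y).testBit (k + i) = y.testBit i := by
  rw [add_comm k i, Nat.testBit_add]
  congr 1
  rw [Nat.add_mul_div_left _ _ (by positivity), Nat.div_eq_of_lt hx, zero_add]

theorem ones_low (k k1 x y : ℕ) (hk : k ≤ k1) (hx : x < 2 ^ k1) : ones k (x + 2 ^ k1 * y) = ones k x := by
  induction k with
  | zero => rfl
  | succ k ih =>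
    simp only [ones]
    rw [ih (by omega), testBit_low k1 x y k (by omega) hx]

theorem rr_low (k k1 x y : ℕ) (hk : k ≤ k1) (hx : x < 2 ^ k1) : rr k (x + 2 ^ k1 * y) = rr k x := by
  induction k with
  | zero => rfl
  | succ k ih =>
    simp only [rr]
    rw [ih (by omega), testBit_low k1 x y k (by omega) hx]

theorem ones_append (k1 k2 x1 x2 : ℕ) (h1 : x1 < 2 ^ k1) :
    ones (k1 + k2) (x1 + 2 ^ k1 * x2) = ones k1 x1 + ones k2 x2 := by
  induction k2 with
  | zero => simp [ones, ones_low k1 k1 x1 x2 le_rfl h1]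
  | succ k2 ih =>
    rw [← add_assoc]
    simp only [ones]
    rw [ih, testBit_high k1 x1 x2 k2 h1, add_assoc]

theorem rr_append (k1 k2 x1 x2 : ℕ) (h1 : x1 < 2 ^ k1) :
    rr (k1 + k2) (x1 + 2 ^ k1 * x2) = 3 ^ (ones k2 x2) * rr k1 x1 + 2 ^ k1 * rr k2 x2 := by
  induction k2 with
  | zero => simp [ones, rr, rr_low k1 k1 x1 x2 le_rfl h1]
  | succ k2 ih =>
    rw [← add_assoc]
    simp only [ones, rr]
    rw [ih, testBit_high k1 x1 x2 k2 h1]
    split_ifs <;> ring

theorem sum_split {M : Type*} [AddCommMonoid M] (k1 k2 : ℕ) (F : ℕ → M) :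
    ∑ x ∈ range (2 ^ (k1 + k2)), F x = ∑ x2 ∈ range (2 ^ k2), ∑ x1 ∈ range (2 ^ k1), F (x1 + 2 ^ k1 * x2) := by
  rw [pow_add]
  generalize 2 ^ k1 = a
  generalize 2 ^ k2 = b
  induction b with
  | zero => simp
  | succ b ih =>
    rw [Nat.mul_succ, Finset.sum_range_add, ih, Finset.sum_range_succ]
    congr 1
    apply Finset.sum_congr rfl
    intro x _
    rw [add_comm]

theorem sum_Wd_split {M : Type*} [AddCommMonoid M] (k1 k2 j : ℕ) (F : ℕ → M) :
    ∑ x ∈ Wd (k1 + k2) j, F x = ∑ x2 ∈ range (2 ^ k2), (if ones k2 x2 ≤ j then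
      ∑ x1 ∈ Wd k1 (j - ones k2 x2), F (x1 + 2 ^ k1 * x2) else 0) := by
  rw [Wd, Finset.sum_filter, sum_split]
  apply Finset.sum_congr rfl
  intro x2 _
  split_ifs with h
  · rw [Wd, Finset.sum_filter]
    apply Finset.sum_congr rfl
    intro x1 hx1
    rw [ones_append k1 k2 x1 x2 (Finset.mem_range.1 hx1)]
    have : (ones k1 x1 + ones k2 x2 = j) ↔ (ones k1 x1 = j - ones k2 x2) := by omega
    simp [this]
  · apply Finset.sum_eq_zero
    intro x1 hx1
    rw [ones_append k1 k2 x1 x2 (Finset.mem_range.1 hx1), if_neg]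
    omega

/-- splitting with the antidiagonal -/
theorem sum_Wd_anti {M : Type*} [AddCommMonoid M] (k1 k2 j : ℕ) (F : ℕ → M) :
    ∑ x ∈ Wd (k1 + k2) j, F x = ∑ p ∈ antidiagonal j, ∑ x2 ∈ Wd k2 p.1, ∑ x1 ∈ Wd k1 p.2, F (x1 + 2 ^ k1 * x2) := by
  rw [sum_Wd_split, Finset.Nat.sum_antidiagonal_eq_sum_range_succ (fun i i' => ∑ x2 ∈ Wd k2 i, ∑ x1 ∈ Wd k1 i', F (x1 + 2 ^ k1 * x2))]
  simp only [Wd]
  have : ∀ i ∈ range (j + 1), ∑ x2 ∈ (range (2 ^ k2)).filter (fun x => ones k2 x = i), ∑ x1 ∈ (range (2 ^ k1)).filter (fun x => ones k1 x = j - i), F (x1 + 2 ^ k1 * x2)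
      = ∑ x2 ∈ range (2 ^ k2), if ones k2 x2 = i then ∑ x1 ∈ (range (2 ^ k1)).filter (fun x => ones k1 x = j - ones k2 x2), F (x1 + 2 ^ k1 * x2) else 0 := by
    intro i _
    rw [Finset.sum_filter]
    apply Finset.sum_congr rfl
    intro x2 _
    split_ifs with h
    · rw [h]
    · rfl
  rw [Finset.sum_congr rfl this, Finset.sum_comm]
  apply Finset.sum_congr rfl
  intro x2 _
  rw [Finset.sum_ite_eq]
  by_cases h : ones k2 x2 ≤ j
  · rw [if_pos h, if_pos (by simp; omega)]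
  · rw [if_neg h, if_neg (by simp; omega)]

theorem mem_Wd {k j x : ℕ} : x ∈ Wd k j ↔ x < 2 ^ k ∧ ones k x = j := by simp [Wd]

theorem Wd_zero_zero : Wd 0 0 = {0} := by
  ext x; simp [Wd, ones]

theorem Wd_zero_succ (j : ℕ) : Wd 0 (j + 1) = ∅ := by
  ext x; simp [Wd, ones]

theorem Wd_one_zero : Wd 1 0 = {0} := by decide

theorem Wd_one_one : Wd 1 1 = {1} := by decide

theorem Wd_big {k j : ℕ} (h : k < j) : Wd k j = ∅ := by
  ext x
  simp only [mem_Wd, Finset.notMem_empty, iff_false, not_and]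
  intro _ h2
  have := ones_le k x
  omega

theorem card_Wd (k j : ℕ) : (Wd k j).card = k.choose j := by
  induction k generalizing j with
  | zero =>
    cases j with
    | zero => simp [Wd_zero_zero]
    | succ j => simp [Wd_zero_succ]
  | succ k ih =>
    rw [Finset.card_eq_sum_ones, sum_Wd_anti k 1 j]
    simp only [Finset.sum_const, smul_eq_mul, mul_one, ih]
    cases j with
    | zero => simp [Wd_one_zero]
    | succ j =>
      rw [Finset.Nat.sum_antidiagonal_eq_sum_range_succ (fun i i' => (Wd 1 i).card * k.choose i')]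
      rw [Finset.sum_range_succ']
      cases j with
      | zero =>
        simp [Wd_one_zero, Wd_one_one]; ring
      | succ j =>
        rw [Finset.sum_range_succ']
        have : ∀ i ∈ range (j + 1), (Wd 1 (i + 1 + 1)).card * k.choose (j + 1 + 1 - (i + 1 + 1)) = 0 := by
          intro i _
          rw [Wd_big (by omega)]; simp
        rw [Finset.sum_congr rfl this]
        simp [Wd_one_zero, Wd_one_one]
        rw [Nat.choose_succ_succ]

theorem rr_one_lt (k x : ℕ) : (rr (k + 1) x) % 2 = if x.testBit 0 then 1 else 0 := by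
  induction k with
  | zero => simp only [rr]; split_ifs <;> simp
  | succ k ih =>
    rw [rr]
    split_ifs at ih ⊢ with h1 h2 <;> omega

theorem testBit0 (x : ℕ) : x.testBit 0 = decide (x % 2 = 1) := by
  simp [Nat.testBit_zero]

theorem ones_bit (k x1 x2 : ℕ) (h1 : x1 < 2) : ones (k + 1) (x1 + 2 * x2) = x1 + ones k x2 := by
  have := ones_append 1 k x1 x2 (by simpa using h1)
  rw [pow_one, add_comm 1 k] at this
  rw [this]
  have : ones 1 x1 = x1 := by interval_cases x1 <;> rfl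
  rw [this]

theorem rr_bit (k x1 x2 : ℕ) (h1 : x1 < 2) : rr (k + 1) (x1 + 2 * x2) = 3 ^ (ones k x2) * x1 + 2 * rr k x2 := by
  have := rr_append 1 k x1 x2 (by simpa using h1)
  rw [pow_one, add_comm 1 k] at this
  rw [this]
  have : rr 1 x1 = x1 := by interval_cases x1 <;> rfl
  rw [this]

theorem rr_inj (k j : ℕ) : Set.InjOn (rr k) (Wd k j : Set ℕ) := by
  induction k generalizing j with
  | zero =>
    intro x hx y hy _
    simp only [Finset.mem_coe, mem_Wd, pow_zero] at hx hy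
    omega
  | succ k ih =>
    intro x hx y hy h
    simp only [Finset.mem_coe, mem_Wd] at hx hy
    have ex : x = x % 2 + 2 * (x / 2) := by omega
    have ey : y = y % 2 + 2 * (y / 2) := by omega
    rw [ex, ey, rr_bit k _ _ (by omega), rr_bit k _ _ (by omega)] at h
    have hox := hx.2
    have hoy := hy.2
    rw [ex, ones_bit k _ _ (by omega)] at hox
    rw [ey, ones_bit k _ _ (by omega)] at hoy
    have o1 : (3 ^ ones k (x / 2)) % 2 = 1 := by rw [Nat.pow_mod]; simp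
    have o2 : (3 ^ ones k (y / 2)) % 2 = 1 := by rw [Nat.pow_mod]; simp
    have hp : x % 2 = y % 2 := by
      rcases Nat.mod_two_eq_zero_or_one x with h3 | h3 <;> rcases Nat.mod_two_eq_zero_or_one y with h4 | h4 <;>
        rw [h3, h4] at h ⊢ <;> simp only [mul_zero, mul_one] at h <;> omega
    have ho : ones k (x / 2) = ones k (y / 2) := by omega
    rw [ho, hp] at h
    have hr : rr k (x / 2) = rr k (y / 2) := by omega
    have := ih (ones k (y / 2)) (by simp only [Finset.mem_coe, mem_Wd]; refine ⟨?_, ho⟩; have := hx.1; rw [pow_succ] at this; omega)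
      (by simp only [Finset.mem_coe, mem_Wd]; refine ⟨?_, trivial⟩; have := hy.1; rw [pow_succ] at this; omega) hr
    omega

theorem h2_mul (n : ℕ) : (2 : ZMod (3 ^ n)) * h2 n = 1 := by
  have : IsUnit (2 : ZMod (3 ^ n)) := by
    have := (ZMod.isUnit_iff_coprime 2 (3 ^ n)).2 (Nat.Coprime.pow_right n (by norm_num))
    simpa using this
  rw [h2, ZMod.mul_inv_of_unit _ this]

theorem two_mul_h2 (n : ℕ) (a : ZMod (3 ^ n)) : 2 * (a * h2 n) = a := by
  rw [mul_left_comm, h2_mul, mul_one]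

theorem two_pow_h2 (n k : ℕ) : (2 : ZMod (3 ^ n)) ^ k * h2 n ^ k = 1 := by
  rw [← mul_pow, h2_mul, one_pow]

theorem ee_zero (n : ℕ) : ee n 0 = 1 := by simp [ee]

theorem ee_add (n : ℕ) (a b : ZMod (3 ^ n)) : ee n (a + b) = ee n a * ee n b := by
  simp [ee, AddChar.map_add_eq_mul]

theorem norm_ee (n : ℕ) (a : ZMod (3 ^ n)) : ‖ee n a‖ = 1 := by
  simp [ee]

theorem ee_int (n : ℕ) (b : ℤ) : ee n (b : ZMod (3 ^ n)) = Complex.exp (2 * Real.pi * Complex.I * b / 3 ^ n) := by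
  rw [ee, ZMod.stdAddChar_coe]
  push_cast
  ring_nf

theorem cw_append (n k1 k2 : ℕ) (ρ : ZMod (3 ^ n)) (x1 x2 : ℕ) (h1 : x1 < 2 ^ k1) :
    cw n (k1 + k2) ρ (x1 + 2 ^ k1 * x2) = (3 ^ (ones k2 x2) * cw n k1 ρ x1 + (rr k2 x2 : ZMod (3 ^ n))) * h2 n ^ k2 := by
  rw [cw, cw, ones_append k1 k2 x1 x2 h1, rr_append k1 k2 x1 x2 h1]
  push_cast
  have := two_pow_h2 n k1
  rw [pow_add, pow_add]
  linear_combination (rr k2 x2 : ZMod (3 ^ n)) * h2 n ^ k2 * this

theorem norm_Amp_le (n t j : ℕ) (a : ZMod (3 ^ n)) : ‖Amp n t j a‖ ≤ t.choose j := by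
  rw [Amp]
  refine (norm_sum_le _ _).trans ?_
  simp only [norm_ee]
  simp [card_Wd]

theorem Amp_add (n t s j : ℕ) (a : ZMod (3 ^ n)) :
    Amp n (t + s) j a = ∑ p ∈ antidiagonal j, Amp n s p.1 a * Amp n t p.2 (3 ^ p.1 * a * h2 n ^ s) := by
  rw [Amp, sum_Wd_anti]
  apply Finset.sum_congr rfl
  intro p _
  rw [Amp, Amp, Finset.sum_mul_sum]
  apply Finset.sum_congr rfl
  intro x2 hx2
  apply Finset.sum_congr rfl
  intro x1 hx1
  rw [mem_Wd] at hx1 hx2
  rw [← ee_add, rr_append t s x1 x2 hx1.1, hx2.2]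
  congr 1
  push_cast
  have := two_pow_h2 n t
  rw [pow_add]
  linear_combination (a * (rr s x2 : ZMod (3 ^ n)) * h2 n ^ s) * this

theorem Amp_zero_zero (n : ℕ) (a : ZMod (3 ^ n)) : Amp n 0 0 a = 1 := by
  simp [Amp, Wd_zero_zero, rr, ee_zero]

theorem Amp_big {n t j : ℕ} (a : ZMod (3 ^ n)) (h : t < j) : Amp n t j a = 0 := by
  simp [Amp, Wd_big h]

theorem Amp_one_zero (n : ℕ) (a : ZMod (3 ^ n)) : Amp n 1 0 a = 1 := by
  simp [Amp, Wd_one_zero, rr, ee_zero]

theorem Amp_one_one (n : ℕ) (a : ZMod (3 ^ n)) : Amp n 1 1 a = ee n (a * h2 n) := by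
  simp [Amp, Wd_one_one, rr]

theorem Amp_succ_zero (n t : ℕ) (a : ZMod (3 ^ n)) : Amp n (t + 1) 0 a = Amp n t 0 (a * h2 n) := by
  rw [Amp_add]
  simp [Amp_one_zero]

theorem Amp_succ_succ (n t j : ℕ) (a : ZMod (3 ^ n)) :
    Amp n (t + 1) (j + 1) a = Amp n t (j + 1) (a * h2 n) + ee n (a * h2 n) * Amp n t j (3 * a * h2 n) := by
  rw [Amp_add, Finset.Nat.sum_antidiagonal_eq_sum_range_succ (fun i i' => Amp n 1 i a * Amp n t i' (3 ^ i * a * h2 n ^ 1))]
  rw [Finset.sum_range_succ', Finset.sum_range_succ']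
  have : ∀ i ∈ range j, Amp n 1 (i + 1 + 1) a * Amp n t (j + 1 - (i + 1 + 1)) (3 ^ (i + 1 + 1) * a * h2 n ^ 1) = 0 := by
    intro i _
    rw [Amp_big a (by omega)]; simp
  rw [Finset.sum_congr rfl this]
  simp [Amp_one_zero, Amp_one_one]
  ring

end Pool.Agent.K7.H66.TD
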