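import Mathlib

/-!
# Definitions and job statements for the natural density theorem
-/

set_option autoImplicit false

namespace Pool.Agent.K7.H66.TD

open Finset

/-- The number of ones among the first `k` binary digits of `x`. -/
def ones : ℕ → ℕ → ℕ
  | 0, _ => 0
  | k + 1, x => ones k x + (if x.testBit k then 1 else 0)

/-- The offset of a word: `T^k(N) = (3^(ones k x) N + rr k x) / 2^k` if `x` codes the parities. -/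
def rr : ℕ → ℕ → ℕ
  | 0, _ => 0
  | k + 1, x => if x.testBit k then 3 * rr k x + 2 ^ k else rr k x

/-- The words of length `k` with `j` ones (as numbers below `2^k`). -/
def Wd (k j : ℕ) : Finset ℕ := (range (2 ^ k)).filter (fun x => ones k x = j)

/-- `1/2` in `ZMod (3^n)`. -/
noncomputable def h2 (n : ℕ) : ZMod (3 ^ n) := (2 : ZMod (3 ^ n))⁻¹

instance neZero3 (n : ℕ) : NeZero (3 ^ n) := ⟨by positivity⟩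

/-- `e(a / 3^n)`. -/
noncomputable def ee (n : ℕ) (a : ZMod (3 ^ n)) : ℂ := ZMod.stdAddChar a

/-- The amplitudes. -/
noncomputable def Amp (n t j : ℕ) (a : ZMod (3 ^ n)) : ℂ :=
  ∑ x ∈ Wd t j, ee n (a * (rr t x : ZMod (3 ^ n)) * h2 n ^ t)

/-- `a / 3^n` has exact order `3^q`. -/
def HasOrd (n q : ℕ) (a : ZMod (3 ^ n)) : Prop := q ≤ n ∧ ∃ u : (ZMod (3 ^ n))ˣ, a = 3 ^ (n - q) * (u : ZMod (3 ^ n))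

/-- the residue of `T^k(N)` modulo `3^n`, for `N ≡ ρ` and the word `x`. -/
noncomputable def cw (n k : ℕ) (ρ : ZMod (3 ^ n)) (x : ℕ) : ZMod (3 ^ n) :=
  (3 ^ (ones k x) * ρ + (rr k x : ZMod (3 ^ n))) * h2 n ^ k

/-- The Collatz map. -/
def T (n : ℕ) : ℕ := if n % 2 = 0 then n / 2 else (3 * n + 1) / 2

open Classical in
/-- number of `M < Z` in the residue class `y` modulo `3^h` with property `B`. -/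
noncomputable def Dn (B : ℕ → Prop) (Z h y : ℕ) : ℕ := ((range Z).filter (fun M => B M ∧ M % 3 ^ h = y)).card

/-! ## Job statements -/

/-- JOB SEG: long balanced segments gain a factor `0.51`. -/
def StSeg : Prop := ∃ q0 : ℕ, ∀ (n q t j : ℕ) (a : ZMod (3 ^ n)), HasOrd n q a → q0 ≤ q →
  t = 5 * q / 3 → |2 * (j : ℝ) - t| ≤ t / 50 → ‖Amp n t j a‖ ≤ 0.51 * (t.choose j : ℝ)

/-- JOB W. -/
def StW : Prop := ∃ C : ℝ, 0 < C ∧ ∀ T0 : ℝ, C ≤ T0 → ∀ m : ℕ, 60 * (m : ℝ) ≤ T0 →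
  ∀ (n q t j : ℕ) (a : ZMod (3 ^ n)), HasOrd n q a → 1 ≤ q → q ≤ j + m →
    ‖Amp n t j a‖ ≤ (7 * T0 / q) ^ (0.34 : ℝ) * (t.choose j : ℝ) + 2 ^ t * (5 * Real.exp (-T0 / 500))

/-- JOB G. -/
def StG : Prop := ∀ (k : ℕ) (y : ℝ), 0 < y →
  (((range (2 ^ k)).filter (fun x => y * 2 ^ k ≤ (rr k x : ℝ))).card : ℝ) * Real.sqrt y ≤ 11 * 2 ^ k

/-- JOB L. -/
def StL : Prop := ∀ (h k1 k2 j1 s : ℕ) (ρ : ZMod (3 ^ h)) (φ : ZMod (3 ^ h) → ℂ) (X : Finset ℕ) (M : ℝ),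
  (∀ Y, ‖φ Y‖ ≤ 1) → 0 ≤ M →
  (∀ a : ZMod (3 ^ h), (∑ Y, φ Y * ee h (-(a * Y))) ≠ 0 → ‖Amp h k1 j1 (3 ^ s * a * h2 h ^ k2)‖ ≤ M) →
  (Set.InjOn (fun x : ℕ => (rr k2 x : ZMod (3 ^ h))) X) →
  ‖∑ x ∈ X, ∑ x1 ∈ Wd k1 j1, φ ((3 ^ s * cw h k1 ρ x1 + (rr k2 x : ZMod (3 ^ h))) * h2 h ^ k2)‖
    ≤ Real.sqrt (X.card * 3 ^ h) * M

/-- JOB HF. -/
def StHF : Prop := ∃ (c K : ℝ) (k0 : ℕ), 0 < c ∧ 0 < K ∧ ∀ k : ℕ, k0 ≤ k → ∀ S m h h1 : ℕ,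
  |2 * (S : ℝ) - k| ≤ 2 * Real.sqrt (k * Real.log k) → (m : ℝ) ≤ (k : ℝ) ^ (1 / 20 : ℝ) → h ≤ S + m →
  (k : ℝ) ^ (1 / 40 : ℝ) ≤ h → 9 * h ≤ 10 * h1 → h1 ≤ h →
  ∀ (ρ : ZMod (3 ^ h)) (φ : ZMod (3 ^ h) → ℂ), (∀ Y, ‖φ Y‖ ≤ 1) →
    (∀ a : ZMod (3 ^ h), (∑ Y, φ Y * ee h (-(3 ^ (h - h1) * a * Y))) = 0) →
    ‖∑ x ∈ Wd k S, φ (cw h k ρ x)‖ ≤ K * 2 ^ k / Real.sqrt k * (h : ℝ) ^ (-c)

/-- JOB OSC. -/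
def StOsc : Prop := ∃ (c K : ℝ) (k0 : ℕ), 0 < c ∧ 0 < K ∧ ∀ k : ℕ, k0 ≤ k → ∀ S m n m' : ℕ,
  |2 * (S : ℝ) - k| ≤ 2 * Real.sqrt (k * Real.log k) → (m : ℝ) ≤ (k : ℝ) ^ (1 / 20 : ℝ) → n = S + m →
  (k : ℝ) ^ (1 / 40 : ℝ) ≤ m' → m' ≤ n →
  ∀ (ρ : ZMod (3 ^ n)) (ψ : (h : ℕ) → ZMod (3 ^ h) → ℝ), (∀ h, h ≤ n → ∀ Y, 0 ≤ ψ h Y ∧ ψ h Y ≤ 1) →
    (∀ h, h < n → ∀ Y : ZMod (3 ^ h),
      ∑ Y1 ∈ (Finset.univ : Finset (ZMod (3 ^ (h + 1)))).filter (fun Y1 => (Y1.cast : ZMod (3 ^ h)) = Y), ψ (h + 1) Y1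
        = 3 * ψ h Y) →
    |∑ x ∈ Wd k S, (ψ n (cw n k ρ x) - ψ m' ((cw n k ρ x).cast : ZMod (3 ^ m')))|
      ≤ K * 2 ^ k / Real.sqrt k * (m' : ℝ) ^ (-c)

/-- JOB BLK. -/
def StBlk : Prop := ∀ B : ℕ → Prop, (∀ N, B N → B (T N)) → ∀ k m A ρ : ℕ, ρ < 3 ^ m →
  Dn B (2 ^ k * 3 ^ m * A) m ρ ≤ ∑ x ∈ range (2 ^ k),
    Dn B (3 ^ (ones k x + m) * A) (ones k x + m) (cw (ones k x + m) k (ρ : ZMod (3 ^ (ones k x + m))) x).val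

open Classical in
/-- The final theorem. -/
def StMain : Prop := ∃ c K : ℝ, 0 < c ∧ 0 < K ∧ ∀ C Z : ℕ, 2 ≤ C →
  (((range Z).filter (fun N => ∀ k, C < T^[k] N)).card : ℝ) ≤ K * (Real.log C) ^ (-c) * Z

end Pool.Agent.K7.H66.TD
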