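import Pool.Agent.K7.H66.TD.Defs

set_option autoImplicit false

namespace Pool.Agent.K7.H66.TD

open Finset

/-- `C(n, j - i)`, zero if `j < i`. -/
def chm (n j i : ℕ) : ℕ := if i ≤ j then n.choose (j - i) else 0

/-- JOB SEG1: the deep lemma. -/
def StDeep : Prop := ∀ (n t j v : ℕ) (a : ZMod (3 ^ n)) (b b' : ℤ), a * h2 n ^ 2 = (b : ZMod (3 ^ n)) →
  b = 2 ^ v * b' → Odd b' → v + 3 ≤ t → 1000 * ((j : ℝ) - 1) ≤ 565 * ((t : ℝ) - 2) →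
  ‖Amp n t j a‖ ≤ (chm (t - 2) j 0 : ℝ) + chm (t - 2) j 2 + Real.sqrt (4 * Real.pi * |(b : ℝ)| / 3 ^ n) * chm (t - 2) j 1

/-- JOB SEG1, part (i): the two-step inequality. -/
def StTwo : Prop := ∀ (n t j : ℕ) (a : ZMod (3 ^ n)),
  ‖Amp n (t + 2) j a‖ ≤ ‖Amp n t j (a * h2 n ^ 2)‖
    + (if 1 ≤ j then ‖1 + ee n (a * h2 n ^ 2)‖ * ‖Amp n t (j - 1) (3 * a * h2 n ^ 2)‖ else 0)
    + (if 2 ≤ j then ‖Amp n t (j - 2) (9 * a * h2 n ^ 2)‖ else 0)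

/-- JOB TAIL. -/
def StTail : Prop := ∀ (k : ℕ) (l : ℝ), 0 ≤ l →
  ∑ j ∈ (range (k + 1)).filter (fun j : ℕ => l ≤ |2 * (j : ℝ) - k|), (k.choose j : ℝ) ≤ 2 * 2 ^ k * Real.exp (-l ^ 2 / (2 * k))

/-- JOB CENTRAL. -/
def StCen : Prop := ∀ (k j : ℕ), 1 ≤ k → (k.choose j : ℝ) ≤ 2 * 2 ^ k / Real.sqrt k

end Pool.Agent.K7.H66.TD
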