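import Mathlib

set_option autoImplicit false

namespace Pool.Agent.K7.H66.TD

open Filter Real

theorem rp {a b d : ℝ} (hab : a < b) (hd : 0 < d) : ∀ᶠ x : ℝ in atTop, x ^ a ≤ d * x ^ b := by
  have h := (tendsto_rpow_atTop (show (0 : ℝ) < b - a by linarith)).eventually (eventually_ge_atTop (1 / d))
  filter_upwards [h, eventually_gt_atTop (0 : ℝ)] with x hx hx1
  have e : x ^ b = x ^ (b - a) * x ^ a := by rw [← Real.rpow_add hx1]; ring_nf
  have h2 : 0 < x ^ a := by positivity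
  have h3 : 1 ≤ d * x ^ (b - a) := by
    rw [div_le_iff₀ hd] at hx; linarith
  rw [e]
  nlinarith

theorem ev1 : ∀ᶠ x : ℝ in atTop, Real.sqrt (x * Real.log x) ≤ x / 1000 := by
  have h := Real.isLittleO_log_id_atTop.bound (show (0 : ℝ) < 1 / 1000000 by norm_num)
  filter_upwards [h, eventually_ge_atTop (1 : ℝ)] with x hx hx1
  rw [Real.norm_eq_abs, abs_of_nonneg (Real.log_nonneg hx1), id, Real.norm_eq_abs, abs_of_nonneg (by linarith)] at hx
  rw [Real.sqrt_le_left (by positivity)]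
  nlinarith

theorem ev2 : ∀ᶠ x : ℝ in atTop, x ^ (1 / 40 : ℝ) + 1 ≤ x / 4 := by
  have h := rp (show (1 / 40 : ℝ) < 1 by norm_num) (show (0 : ℝ) < 1 / 8 by norm_num)
  filter_upwards [h, eventually_ge_atTop (8 : ℝ)] with x hx hx1
  rw [Real.rpow_one] at hx
  linarith

theorem ev3 : ∀ᶠ x : ℝ in atTop, (1.45 * x) ^ (1 / 40 : ℝ) + 1 ≤ (x / 2) ^ (1 / 21 : ℝ) := by
  have h := rp (show (1 / 40 : ℝ) < 1 / 21 by norm_num) (show (0 : ℝ) < 1 / 4 by norm_num)
  have ht : Tendsto (fun x : ℝ => x / 2) atTop atTop := tendsto_id.atTop_div_const (by norm_num)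
  have h2 := ht.eventually h
  have h3 := (tendsto_rpow_atTop (show (0 : ℝ) < 1 / 21 by norm_num)).eventually (eventually_ge_atTop (4 : ℝ))
  have h4 := ht.eventually h3
  filter_upwards [h2, h4, eventually_ge_atTop (8 : ℝ)] with x hx hx4 hx1
  have e1 : (1.45 * x) = 2.9 * (x / 2) := by ring
  rw [e1, Real.mul_rpow (by norm_num) (by positivity)]
  have e2 : (2.9 : ℝ) ^ (1 / 40 : ℝ) ≤ 2 := by
    calc (2.9 : ℝ) ^ (1 / 40 : ℝ) ≤ (2 ^ (40 : ℝ)) ^ (1 / 40 : ℝ) := by
          apply Real.rpow_le_rpow (by norm_num) _ (by norm_num)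
          norm_num
      _ = 2 := by rw [← Real.rpow_mul (by norm_num)]; norm_num
  have e3 : 0 ≤ (x / 2) ^ (1 / 40 : ℝ) := by positivity
  nlinarith

theorem ev4 {c : ℝ} (hc : 0 < c) : ∀ᶠ x : ℝ in atTop, Real.sqrt (Real.log x) ≤ x ^ c := by
  have h := (isLittleO_log_rpow_atTop (show (0 : ℝ) < 2 * c by positivity)).bound (show (0 : ℝ) < 1 by norm_num)
  filter_upwards [h, eventually_ge_atTop (1 : ℝ)] with x hx hx1
  rw [Real.norm_eq_abs, abs_of_nonneg (Real.log_nonneg hx1), Real.norm_eq_abs, abs_of_nonneg (by positivity), one_mul] at hx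
  rw [Real.sqrt_le_left (by positivity), ← Real.rpow_natCast, ← Real.rpow_mul (by linarith)]
  have : c * ((2 : ℕ) : ℝ) = 2 * c := by push_cast; ring
  rwa [this]

theorem ev5 : ∀ᶠ x : ℝ in atTop, 2 * x ^ (1 / 21 : ℝ) + 1.5 * Real.log (1.45 * x) + 1 ≤ 0.04 * x := by
  have h := rp (show (1 / 21 : ℝ) < 1 by norm_num) (show (0 : ℝ) < 1 / 200 by norm_num)
  have ht : Tendsto (fun x : ℝ => 1.45 * x) atTop atTop := tendsto_id.const_mul_atTop (by norm_num)
  have h2 := ht.eventually (Real.isLittleO_log_id_atTop.bound (show (0 : ℝ) < 1 / 200 by norm_num))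
  filter_upwards [h, h2, eventually_ge_atTop (1000 : ℝ)] with x hx hx2 hx1
  rw [Real.rpow_one] at hx
  rw [Real.norm_eq_abs, abs_of_nonneg (Real.log_nonneg (by linarith)), id, Real.norm_eq_abs, abs_of_nonneg (by linarith)] at hx2
  linarith

end Pool.Agent.K7.H66.TD
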