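import Pool.Agent.K7.H66.TD.Params

set_option autoImplicit false

namespace Pool.Agent.K7.H66.TD

open Finset Filter

theorem Dn_add (B : ℕ → Prop) (k m A Z ρ : ℕ) (h2 : Z < 2 ^ k * 3 ^ m * (A + 1)) :
    Dn B Z m ρ ≤ Dn B (2 ^ k * 3 ^ m * A) m ρ + 2 ^ k := by
  classical
  have e1 : Dn B Z m ρ = ((range Z).filter (fun M => B M ∧ M % 3 ^ m = ρ)).card := by rw [Dn]
  have e2 : Dn B (2 ^ k * 3 ^ m * A) m ρ = ((range (2 ^ k * 3 ^ m * A)).filter (fun M => B M ∧ M % 3 ^ m = ρ)).card := by rw [Dn]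
  rw [e1, e2]
  have hsub : (range Z).filter (fun M => B M ∧ M % 3 ^ m = ρ) ⊆
      (range (2 ^ k * 3 ^ m * A)).filter (fun M => B M ∧ M % 3 ^ m = ρ) ∪
      (Finset.Ico (2 ^ k * 3 ^ m * A) (2 ^ k * 3 ^ m * (A + 1))).filter (fun M => M % 3 ^ m = ρ) := by
    intro M hM
    simp only [Finset.mem_filter, Finset.mem_range, Finset.mem_union, Finset.mem_Ico] at hM ⊢
    by_cases h : M < 2 ^ k * 3 ^ m * A
    · exact Or.inl ⟨h, hM.2⟩
    · exact Or.inr ⟨⟨by omega, by omega⟩, hM.2.2⟩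
  refine (Finset.card_le_card hsub).trans ((Finset.card_union_le _ _).trans ?_)
  gcongr
  calc _ ≤ (Finset.Ico (2 ^ k * A) (2 ^ k * (A + 1))).card := by
        apply Finset.card_le_card_of_injOn (fun M => M / 3 ^ m)
        · intro M hM
          simp only [Finset.coe_filter, Finset.mem_Ico, Set.mem_ofPred_eq, Finset.coe_Ico, Set.mem_Ico] at hM ⊢
          constructor
          · rw [Nat.le_div_iff_mul_le (by positivity)]
            calc 2 ^ k * A * 3 ^ m = 2 ^ k * 3 ^ m * A := by ring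
              _ ≤ M := hM.1.1
          · rw [Nat.div_lt_iff_lt_mul (by positivity)]
            calc M < 2 ^ k * 3 ^ m * (A + 1) := hM.1.2
              _ = 2 ^ k * (A + 1) * 3 ^ m := by ring
        · intro M hM M' hM' h
          simp only [Finset.coe_filter, Finset.mem_Ico, Set.mem_ofPred_eq] at hM hM' h
          rw [← Nat.div_add_mod M (3 ^ _), ← Nat.div_add_mod M' (3 ^ _), h, hM.2, hM'.2]
    _ = 2 ^ k := by rw [Nat.card_Ico, Nat.mul_add, Nat.mul_one, Nat.add_sub_cancel_left]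

theorem Dn_zero_of (B : ℕ → Prop) (Z h y : ℕ) (hB : ∀ N, N < Z → ¬ B N) : Dn B Z h y = 0 := by
  classical
  rw [Dn, Finset.card_eq_zero, Finset.filter_eq_empty_iff]
  intro M hM h
  exact hB M (Finset.mem_range.1 hM) h.1

theorem Dn_zero_of_big (B : ℕ → Prop) (Z h y : ℕ) (hy : 3 ^ h ≤ y) : Dn B Z h y = 0 := by
  classical
  rw [Dn, Finset.card_eq_zero, Finset.filter_eq_empty_iff]
  intro M _ h1
  have := Nat.mod_lt M (show 0 < 3 ^ h by positivity)
  omega

theorem err_bound {c1 K1 : ℝ} (hc1 : 0 < c1) (hK1 : 0 < K1) : ∃ y1 : ℝ, 1 ≤ y1 ∧ ∀ (y : ℝ) (k m' : ℕ), y1 ≤ y → y ≤ k →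
    (k : ℝ) ^ (1 / 40 : ℝ) ≤ m' →
    2 / (k : ℝ) ^ 2 + (2 * Real.sqrt (k * Real.log k) + 1) * (K1 / Real.sqrt k * (m' : ℝ) ^ (-c1)) + 2 / y
      ≤ (3 * K1 + 4) * y ^ (-(min (c1 / 80) (1 / 2))) := by
  obtain ⟨a, ha⟩ := eventually_atTop.1 (ev4 (show 0 < c1 / 80 by positivity))
  refine ⟨max a 3, le_max_of_le_right (by norm_num), ?_⟩
  intro y k m' hy hyk hm
  have hya : a ≤ y := (le_max_left _ _).trans hy
  have hy3 : 3 ≤ y := (le_max_right _ _).trans hy
  have hk3 : (3 : ℝ) ≤ k := hy3.trans hyk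
  have hk0 : (0 : ℝ) < k := by linarith
  set c := min (c1 / 80) (1 / 2) with hc
  have hcc : c ≤ c1 / 80 := min_le_left _ _
  have hc2 : c ≤ 1 / 2 := min_le_right _ _
  have hcpos : 0 < c := lt_min (by positivity) (by norm_num)
  have h1 := ha k (hya.trans hyk)
  -- y^{-1} <= y^{-c}
  have hyc : 1 / y ≤ y ^ (-c) := by
    rw [one_div, ← Real.rpow_neg_one]
    exact Real.rpow_le_rpow_of_exponent_le (by linarith) (by linarith)
  have hlog1 : 1 ≤ Real.log k := by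
    rw [Real.le_log_iff_exp_le hk0]
    have := Real.exp_one_lt_d9
    linarith
  have hsq1 : 1 ≤ Real.sqrt (Real.log k) := by rw [Real.one_le_sqrt]; exact hlog1
  have hsk : 1 ≤ Real.sqrt k := by rw [Real.one_le_sqrt]; linarith
  have h2 : (2 * Real.sqrt (k * Real.log k) + 1) / Real.sqrt k ≤ 3 * Real.sqrt (Real.log k) := by
    rw [div_le_iff₀ (by linarith), Real.sqrt_mul hk0.le]
    nlinarith
  have h3 : (m' : ℝ) ^ (-c1) ≤ (k : ℝ) ^ (-(c1 / 40)) := by
    have h4 : ((k : ℝ) ^ (1 / 40 : ℝ)) ^ (-c1) = (k : ℝ) ^ (-(c1 / 40)) := by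
      rw [← Real.rpow_mul hk0.le]; congr 1; ring
    rw [← h4]
    exact Real.rpow_le_rpow_of_nonpos (by positivity) hm (by linarith)
  have h5 : (2 * Real.sqrt (k * Real.log k) + 1) * (K1 / Real.sqrt k * (m' : ℝ) ^ (-c1)) ≤ 3 * K1 * y ^ (-c) := by
    calc (2 * Real.sqrt (k * Real.log k) + 1) * (K1 / Real.sqrt k * (m' : ℝ) ^ (-c1))
        = K1 * (((2 * Real.sqrt (k * Real.log k) + 1) / Real.sqrt k) * (m' : ℝ) ^ (-c1)) := by ring
      _ ≤ K1 * ((3 * (k : ℝ) ^ (c1 / 80)) * (k : ℝ) ^ (-(c1 / 40))) := by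
          apply mul_le_mul_of_nonneg_left _ hK1.le
          apply mul_le_mul (h2.trans (by linarith)) h3 (by positivity) (by positivity)
      _ = 3 * K1 * (k : ℝ) ^ (-(c1 / 80)) := by
          rw [mul_assoc 3, ← Real.rpow_add hk0]; ring_nf
      _ ≤ 3 * K1 * y ^ (-(c1 / 80)) := by
          apply mul_le_mul_of_nonneg_left _ (by positivity)
          exact Real.rpow_le_rpow_of_nonpos (by linarith) hyk (by linarith)
      _ ≤ 3 * K1 * y ^ (-c) := by
          apply mul_le_mul_of_nonneg_left _ (by positivity)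
          exact Real.rpow_le_rpow_of_exponent_le (by linarith) (by linarith)
  have h6 : 2 / (k : ℝ) ^ 2 ≤ 2 * (1 / y) := by
    rw [mul_one_div]
    apply div_le_div_of_nonneg_left (by norm_num) (by linarith)
    nlinarith
  have h7 : 2 / y = 2 * (1 / y) := by ring
  rw [h7]
  nlinarith

theorem iter {c1 K1 : ℝ} {k0 : ℕ} (hc1 : 0 < c1) (hK1 : 0 < K1) (hB : StBlk) (hT : StTail)
    (hO : ∀ k : ℕ, k0 ≤ k → ∀ S m n m' : ℕ,
  |2 * (S : ℝ) - k| ≤ 2 * Real.sqrt (k * Real.log k) → (m : ℝ) ≤ (k : ℝ) ^ (1 / 20 : ℝ) → n = S + m →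
  (k : ℝ) ^ (1 / 40 : ℝ) ≤ m' → m' ≤ n →
  ∀ (ρ : ZMod (3 ^ n)) (ψ : (h : ℕ) → ZMod (3 ^ h) → ℝ), (∀ h, h ≤ n → ∀ Y, 0 ≤ ψ h Y ∧ ψ h Y ≤ 1) →
    (∀ h, h < n → ∀ Y : ZMod (3 ^ h),
      ∑ Y1 ∈ (Finset.univ : Finset (ZMod (3 ^ (h + 1)))).filter (fun Y1 => (Y1.cast : ZMod (3 ^ h)) = Y), ψ (h + 1) Y1
        = 3 * ψ h Y) →
    |∑ x ∈ Wd k S, (ψ n (cw n k ρ x) - ψ m' ((cw n k ρ x).cast : ZMod (3 ^ m')))|
      ≤ K1 * 2 ^ k / Real.sqrt k * (m' : ℝ) ^ (-c1)) :
    ∃ (c K : ℝ) (C0 : ℕ), 0 < c ∧ 0 < K ∧ 3 ≤ C0 ∧ ∀ (B : ℕ → Prop), (∀ N, B N → B (T N)) → ∀ C : ℕ, C0 ≤ C →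
      (∀ N, B N → C < N) → ∀ Z m ρ : ℕ, ρ < 3 ^ m → (m : ℝ) ≤ (Real.log Z) ^ (1 / 21 : ℝ) → C < Z →
      (Dn B Z m ρ : ℝ) * 3 ^ m ≤ K * (2 * (Real.log C) ^ (-c) - (Real.log Z) ^ (-c)) * Z := by
  obtain ⟨y0, hy0, hp⟩ := params k0
  obtain ⟨y1, hy1, he⟩ := err_bound hc1 hK1
  set c := min (c1 / 80) (1 / 2) with hc
  have hc2 : c ≤ 1 / 2 := min_le_right _ _
  have hcpos : 0 < c := lt_min (by positivity) (by norm_num)
  set θ : ℝ := (0.85 : ℝ) ^ (-c) with hθ
  have hθ1 : 1 < θ := by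
    rw [hθ]
    exact Real.one_lt_rpow_of_pos_of_lt_one_of_neg (by norm_num) (by norm_num) (by linarith)
  have hθ2 : θ ≤ 2 := by
    calc θ ≤ (0.85 : ℝ) ^ (-(1 / 2) : ℝ) :=
          Real.rpow_le_rpow_of_exponent_ge (by norm_num) (by norm_num) (by linarith)
      _ ≤ (0.25 : ℝ) ^ (-(1 / 2) : ℝ) := Real.rpow_le_rpow_of_nonpos (by norm_num) (by norm_num) (by norm_num)
      _ = 2 := by
          rw [show (0.25 : ℝ) = 2 ^ (-2 : ℝ) by rw [Real.rpow_neg (by norm_num)]; norm_num, ← Real.rpow_mul (by norm_num)]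
          norm_num
  set K := (3 * K1 + 4) / (θ - 1) with hK
  have hKpos : 0 < K := div_pos (by positivity) (by linarith)
  refine ⟨c, K, max 3 ⌈Real.exp (max y0 y1)⌉₊, hcpos, hKpos, le_max_left _ _, ?_⟩
  intro B hBT C hC hBC Z
  have hC3 : 3 ≤ C := (le_max_left _ _).trans hC
  have hCexp : Real.exp (max y0 y1) ≤ C := by
    have : (⌈Real.exp (max y0 y1)⌉₊ : ℝ) ≤ C := by exact_mod_cast (le_max_right _ _).trans hC
    exact (Nat.le_ceil _).trans this
  have hlogC : max y0 y1 ≤ Real.log C := by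
    rw [Real.le_log_iff_exp_le (by positivity)]; exact hCexp
  induction Z using Nat.strong_induction_on with
  | _ Z ih =>
  intro m ρ hρ hm hCZ
  have hZR : (C : ℝ) < Z := by exact_mod_cast hCZ
  have hCR : (3 : ℝ) ≤ C := by exact_mod_cast hC3
  have hlogZ : Real.log C < Real.log Z := Real.log_lt_log (by linarith) hZR
  have hyZ : max y0 y1 ≤ Real.log Z := hlogC.trans hlogZ.le
  obtain ⟨k, A, m', hA1, hle, hlt, hAinv, hyk, hk0, hk3, hm20, hm'1, hS⟩ :=
    hp Z m (by omega) ((le_max_left _ _).trans hyZ) hm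
  set y := Real.log Z with hy
  have hy1' : 1 ≤ y := hy0.trans ((le_max_left _ _).trans hyZ)
  have hlogC1 : 1 ≤ Real.log C := hy0.trans ((le_max_left _ _).trans hlogC)
  set u := (Real.log C) ^ (-c) with hu
  have hupos : 0 < u := by positivity
  set x := K * (2 * u - (0.85 * y) ^ (-c)) with hx
  have hyθ : (0.85 * y) ^ (-c) = θ * y ^ (-c) := Real.mul_rpow (by norm_num) (by linarith)
  have hyu : y ^ (-c) ≤ u := Real.rpow_le_rpow_of_nonpos (by linarith) hlogZ.le (by linarith)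
  have hypos : 0 < y ^ (-c) := by positivity
  have hx0 : 0 ≤ x := by
    rw [hx, hyθ]
    apply mul_nonneg hKpos.le
    nlinarith
  have hstage := stage hB hT hK1 hO B hBT k m A ρ m' hk0 hk3 hA1 hρ hm20 hm'1 (fun S h => (hS S h).1) x hx0 ?_
  · have hadd := Dn_add B k m A Z ρ hlt
    have haddR : (Dn B Z m ρ : ℝ) ≤ Dn B (2 ^ k * 3 ^ m * A) m ρ + 2 ^ k := by exact_mod_cast hadd
    have hAR : (0 : ℝ) < A := by exact_mod_cast hA1
    have hE := he y k m' ((le_max_right _ _).trans hyZ) hyk hm'1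
    set W := 2 / (k : ℝ) ^ 2 + (2 * Real.sqrt (k * Real.log k) + 1) * (K1 / Real.sqrt k * (m' : ℝ) ^ (-c1)) with hW
    have hW0 : 0 ≤ W := by positivity
    have hleR : (2 : ℝ) ^ k * 3 ^ m * A ≤ Z := by exact_mod_cast hle
    have h3m : (0 : ℝ) < 3 ^ m := by positivity
    calc (Dn B Z m ρ : ℝ) * 3 ^ m ≤ ((x + W) * (2 ^ k * A) + 2 ^ k) * 3 ^ m :=
          mul_le_mul_of_nonneg_right (by linarith) h3m.le
      _ = (x + W + 1 / A) * (2 ^ k * 3 ^ m * A) := by field_simp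
      _ ≤ (x + W + 1 / A) * Z := mul_le_mul_of_nonneg_left hleR (by positivity)
      _ ≤ K * (2 * u - y ^ (-c)) * Z := by
          apply mul_le_mul_of_nonneg_right _ (by positivity)
          have h8 : W + 1 / A ≤ (3 * K1 + 4) * y ^ (-c) := by linarith
          have h9 : (3 * K1 + 4) = K * (θ - 1) := by
            rw [hK, div_mul_cancel₀]; linarith
          rw [h9] at h8
          rw [hx, hyθ]
          nlinarith
  · intro S hSt ρ'
    obtain ⟨hS1, hS2, hS3⟩ := hS S hSt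
    have hZS0 : (0 : ℝ) ≤ 3 ^ (S + m) * A := by positivity
    by_cases hρ' : 3 ^ m' ≤ ρ'
    · rw [Dn_zero_of_big B _ _ _ hρ']
      push_cast
      rw [zero_mul]
      exact mul_nonneg hx0 hZS0
    by_cases hCS : 3 ^ (S + m) * A ≤ C
    · rw [Dn_zero_of B _ _ _ (fun N hN hBN => by have := hBC N hBN; omega)]
      push_cast
      rw [zero_mul]
      exact mul_nonneg hx0 hZS0
    push Not at hρ' hCS
    have hCSR : (C : ℝ) < ((3 ^ (S + m) * A : ℕ) : ℝ) := by exact_mod_cast hCS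
    have hlt2 : 3 ^ (S + m) * A < Z := by
      by_contra hcon
      push Not at hcon
      have h10 : (Z : ℝ) ≤ ((3 ^ (S + m) * A : ℕ) : ℝ) := by exact_mod_cast hcon
      have h11 := Real.log_le_log (by linarith) h10
      linarith
    have h12 := ih _ hlt2 m' ρ' hρ' hS2 hCS
    have hlogS : 0 < Real.log ((3 ^ (S + m) * A : ℕ) : ℝ) := Real.log_pos (by linarith)
    have h13 : (0.85 * y) ^ (-c) ≤ (Real.log ((3 ^ (S + m) * A : ℕ) : ℝ)) ^ (-c) :=
      Real.rpow_le_rpow_of_nonpos hlogS hS3 (by linarith)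
    have hcast : (((3 ^ (S + m) * A : ℕ)) : ℝ) = 3 ^ (S + m) * A := by push_cast; ring
    rw [hcast] at h12 h13
    refine h12.trans ?_
    apply mul_le_mul_of_nonneg_right _ hZS0
    rw [hx]
    apply mul_le_mul_of_nonneg_left _ hKpos.le
    linarith

theorem main (hO : StOsc) (hB : StBlk) (hT : StTail) : StMain := by
  classical
  obtain ⟨c1, K1, k0, hc1, hK1, hO⟩ := hO
  obtain ⟨c, K, C0, hc, hK, hC0, h⟩ := iter hc1 hK1 hB hT hO
  have hlogC0 : 0 < Real.log C0 := Real.log_pos (by exact_mod_cast (by omega : 1 < C0))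
  refine ⟨c, 2 * K + (Real.log C0) ^ c, hc, by positivity, ?_⟩
  intro C Z hC
  have hlogC : 0 < Real.log C := Real.log_pos (by exact_mod_cast (by omega : 1 < C))
  have hbase : (((range Z).filter (fun N => ∀ k, C < T^[k] N)).card : ℝ) ≤ Z := by
    have := Finset.card_filter_le (range Z) (fun N => ∀ k, C < T^[k] N)
    rw [card_range] at this
    exact_mod_cast this
  by_cases hCC : C0 ≤ C
  · set B : ℕ → Prop := fun N => ∀ k, C < T^[k] N with hBdef
    have hBT : ∀ N, B N → B (T N) := by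
      intro N hN k
      have := hN (k + 1)
      rwa [Function.iterate_succ_apply] at this
    have hBC : ∀ N, B N → C < N := fun N hN => hN 0
    have hcard : (((range Z).filter (fun N => ∀ k, C < T^[k] N)).card : ℝ) = (Dn B Z 0 0 : ℝ) := by
      rw [Dn]
      congr 2
      ext N
      simp [hBdef, Nat.mod_one]
    rw [hcard]
    by_cases hCZ : C < Z
    · have h1 := h B hBT C hCC hBC Z 0 0 (by norm_num) (by
        push_cast
        exact Real.rpow_nonneg (Real.log_nonneg (by exact_mod_cast (by omega : 1 ≤ Z))) _) hCZ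
      rw [pow_zero, mul_one] at h1
      refine h1.trans ?_
      apply mul_le_mul_of_nonneg_right _ (by positivity)
      have h2 : 0 ≤ (Real.log Z) ^ (-c) := Real.rpow_nonneg (Real.log_nonneg (by exact_mod_cast (by omega : 1 ≤ Z))) _
      have h3 : 0 ≤ (Real.log C0) ^ c * (Real.log C) ^ (-c) := by positivity
      nlinarith
    · rw [Dn_zero_of B _ _ _ (fun N hN hBN => by have := hBC N hBN; omega)]
      push_cast
      positivity
  · push Not at hCC
    refine hbase.trans ?_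
    have h4 : 1 ≤ (Real.log C0) ^ c * (Real.log C) ^ (-c) := by
      rw [Real.rpow_neg hlogC.le, ← div_eq_mul_inv, one_le_div (by positivity)]
      apply Real.rpow_le_rpow hlogC.le _ hc.le
      apply Real.log_le_log (by positivity)
      exact_mod_cast hCC.le
    have h5 : 0 ≤ 2 * K * (Real.log C) ^ (-c) := by positivity
    have hZ0 : (0 : ℝ) ≤ Z := by positivity
    calc (Z : ℝ) = 1 * Z := by ring
      _ ≤ ((2 * K + (Real.log C0) ^ c) * (Real.log C) ^ (-c)) * Z := by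
          apply mul_le_mul_of_nonneg_right _ hZ0
          nlinarith

end Pool.Agent.K7.H66.TD
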