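import Pool.Agent.K7.H66.TD.Stage
import Pool.Agent.K7.H66.TD.Ev

set_option autoImplicit false

namespace Pool.Agent.K7.H66.TD

open Finset Filter

theorem log3_le : Real.log 3 ≤ 1.6 * Real.log 2 := by
  have h : Real.log ((3 : ℝ) ^ 5) ≤ Real.log ((2 : ℝ) ^ 8) := Real.log_le_log (by norm_num) (by norm_num)
  rw [Real.log_pow, Real.log_pow] at h
  push_cast at h
  linarith

theorem log3_ge : 1.5 * Real.log 2 ≤ Real.log 3 := by
  have h : Real.log ((2 : ℝ) ^ 3) ≤ Real.log ((3 : ℝ) ^ 2) := Real.log_le_log (by norm_num) (by norm_num)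
  rw [Real.log_pow, Real.log_pow] at h
  push_cast at h
  linarith

theorem params (k0 : ℕ) : ∃ y0 : ℝ, 1 ≤ y0 ∧ ∀ (Z m : ℕ), 0 < Z → y0 ≤ Real.log Z → (m : ℝ) ≤ (Real.log Z) ^ (1 / 21 : ℝ) →
    ∃ k A m' : ℕ, 1 ≤ A ∧ 2 ^ k * 3 ^ m * A ≤ Z ∧ Z < 2 ^ k * 3 ^ m * (A + 1) ∧ (1 / A : ℝ) ≤ 2 / Real.log Z ∧
      Real.log Z ≤ k ∧ k0 ≤ k ∧ 3 ≤ k ∧ (m : ℝ) ≤ (k : ℝ) ^ (1 / 20 : ℝ) ∧ (k : ℝ) ^ (1 / 40 : ℝ) ≤ m' ∧
      ∀ S ∈ typ k, m' ≤ S + m ∧ (m' : ℝ) ≤ (Real.log ((3 ^ (S + m) * A : ℕ) : ℝ)) ^ (1 / 21 : ℝ) ∧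
        Real.log ((3 ^ (S + m) * A : ℕ) : ℝ) ≤ 0.85 * Real.log Z := by
  obtain ⟨a1, h1⟩ := eventually_atTop.1 ev1
  obtain ⟨a2, h2⟩ := eventually_atTop.1 ev2
  obtain ⟨a3, h3⟩ := eventually_atTop.1 ev3
  obtain ⟨a5, h5⟩ := eventually_atTop.1 ev5
  refine ⟨max (max (max a1 a2) (max a3 a5)) (max 10 k0), ?_, ?_⟩
  · exact le_max_of_le_right (le_max_of_le_left (by norm_num))
  intro Z m hZ hy hm
  set y := Real.log Z with hydef
  have hy1 : a1 ≤ y := (le_max_left _ _).trans ((le_max_left _ _).trans ((le_max_left _ _).trans hy))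
  have hy2 : a2 ≤ y := (le_max_right _ _).trans ((le_max_left _ _).trans ((le_max_left _ _).trans hy))
  have hy3 : a3 ≤ y := (le_max_left _ _).trans ((le_max_right _ _).trans ((le_max_left _ _).trans hy))
  have hy5 : a5 ≤ y := (le_max_right _ _).trans ((le_max_right _ _).trans ((le_max_left _ _).trans hy))
  have hy10 : 10 ≤ y := (le_max_left _ _).trans ((le_max_right _ _).trans hy)
  have hyk : (k0 : ℝ) ≤ y := (le_max_right _ _).trans ((le_max_right _ _).trans hy)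
  have hZR : (0 : ℝ) < Z := by exact_mod_cast hZ
  have hl2 := Real.log_two_gt_d9
  have hl2' := Real.log_two_lt_d9
  have hl3 := log3_le
  have hl3' := log3_ge
  set ℓ := Nat.log 2 Z with hℓ
  have hℓ1 : (2 : ℝ) ^ ℓ ≤ Z := by exact_mod_cast Nat.pow_log_le_self 2 hZ.ne'
  have hℓ2 : (Z : ℝ) < 2 ^ (ℓ + 1) := by exact_mod_cast Nat.lt_pow_succ_log_self (by norm_num) Z
  have hℓ1' : ℓ * Real.log 2 ≤ y := by
    rw [← Real.log_pow]; exact Real.log_le_log (by positivity) hℓ1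
  have hℓ2' : y < (ℓ + 1) * Real.log 2 := by
    have := Real.log_lt_log hZR hℓ2
    rw [Real.log_pow] at this
    push_cast at this
    exact this
  have hℓu : (ℓ : ℝ) ≤ 1.45 * y := by nlinarith
  have hℓl : 1.442 * y - 1 ≤ ℓ := by nlinarith
  have hℓpos : 0 < ℓ := by
    have : (0 : ℝ) < ℓ := by linarith
    exact_mod_cast this
  set w := Nat.log 2 ℓ with hw
  have hw1 : (2 : ℝ) ^ w ≤ ℓ := by exact_mod_cast Nat.pow_log_le_self 2 hℓpos.ne'
  have hw2 : (ℓ : ℝ) < 2 ^ (w + 1) := by exact_mod_cast Nat.lt_pow_succ_log_self (by norm_num) ℓ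
  have hlogpos : 0 ≤ Real.log (1.45 * y) := Real.log_nonneg (by linarith)
  have hw3 : (w : ℝ) ≤ 1.5 * Real.log (1.45 * y) := by
    have h6 : w * Real.log 2 ≤ Real.log (1.45 * y) := by
      rw [← Real.log_pow]; exact Real.log_le_log (by positivity) (hw1.trans hℓu)
    have hw0 : (0 : ℝ) ≤ w := by positivity
    nlinarith
  have h5' := h5 y hy5
  have hsum : 2 * (m : ℝ) + w ≤ 0.04 * y - 1 := by linarith
  have hle : 2 * m + w ≤ ℓ := by
    have : (2 * (m : ℝ) + w) ≤ ℓ := by linarith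
    exact_mod_cast this
  obtain ⟨k, hk⟩ : ∃ k, ℓ = k + (2 * m + w) := ⟨ℓ - (2 * m + w), by omega⟩
  have hkR : (ℓ : ℝ) = k + (2 * m + w) := by rw [hk]; push_cast; ring
  have hkl : 1.4 * y ≤ k := by linarith
  have hku : (k : ℝ) ≤ 1.45 * y := by
    have : (0 : ℝ) ≤ 2 * m + w := by positivity
    linarith
  have hky : y ≤ k := by linarith
  have hk10 : (10 : ℝ) ≤ k := by linarith
  set D := 2 ^ k * 3 ^ m with hD
  have hDpos : 0 < D := by positivity
  have hDw : 2 ^ w * D ≤ Z := by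
    calc 2 ^ w * (2 ^ k * 3 ^ m) ≤ 2 ^ w * (2 ^ k * 4 ^ m) := by
          apply Nat.mul_le_mul_left; apply Nat.mul_le_mul_left; exact Nat.pow_le_pow_left (by norm_num) m
      _ = 2 ^ ℓ := by
          rw [hk, show (4 : ℕ) = 2 ^ 2 by norm_num, ← pow_mul, ← pow_add, ← pow_add]; congr 1; ring
      _ ≤ Z := Nat.pow_log_le_self 2 hZ.ne'
  set A := Z / D with hA
  have hAw : 2 ^ w ≤ A := (Nat.le_div_iff_mul_le hDpos).2 hDw
  have hA1 : 1 ≤ A := le_trans Nat.one_le_two_pow hAw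
  have hAle : D * A ≤ Z := Nat.mul_div_le Z D
  have hAlt : Z < D * (A + 1) := by
    have := Nat.lt_mul_div_succ Z hDpos
    exact this
  have hAR : (ℓ : ℝ) / 2 ≤ A := by
    have h7 : (2 : ℝ) ^ w ≤ A := by exact_mod_cast hAw
    rw [pow_succ] at hw2
    linarith
  have hApos : (0 : ℝ) < A := by exact_mod_cast hA1
  set m' := ⌈(k : ℝ) ^ (1 / 40 : ℝ)⌉₊ with hm'
  have hm'1 : (k : ℝ) ^ (1 / 40 : ℝ) ≤ m' := Nat.le_ceil _
  have hm'2 : (m' : ℝ) ≤ (k : ℝ) ^ (1 / 40 : ℝ) + 1 := (Nat.ceil_lt_add_one (by positivity)).le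
  refine ⟨k, A, m', hA1, hAle, hAlt, ?_, hky, ?_, ?_, ?_, hm'1, ?_⟩
  · rw [div_le_div_iff₀ hApos (by linarith)]
    linarith
  · have : (k0 : ℝ) ≤ k := hyk.trans hky
    exact_mod_cast this
  · have : (3 : ℝ) ≤ k := by linarith
    exact_mod_cast this
  · refine hm.trans ?_
    calc y ^ (1 / 21 : ℝ) ≤ (k : ℝ) ^ (1 / 21 : ℝ) := Real.rpow_le_rpow (by linarith) hky (by norm_num)
      _ ≤ (k : ℝ) ^ (1 / 20 : ℝ) := Real.rpow_le_rpow_of_exponent_le (by linarith) (by norm_num)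
  · intro S hS
    rw [typ, Finset.mem_filter, not_le] at hS
    have h8 := h1 k (hy1.trans hky)
    have h9 := abs_lt.1 hS.2
    have hSl : 0.499 * (k : ℝ) ≤ S := by linarith [h9.1]
    have hSu : (S : ℝ) ≤ 0.501 * k := by linarith [h9.2]
    have h10 := h2 k (hy2.trans hky)
    have hcast : (((3 ^ (S + m) * A : ℕ)) : ℝ) = 3 ^ (S + m) * A := by push_cast; ring
    have hlog : Real.log (((3 ^ (S + m) * A : ℕ)) : ℝ) = (S + m) * Real.log 3 + Real.log A := by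
      rw [hcast, Real.log_mul (by positivity) hApos.ne', Real.log_pow]; push_cast; ring
    have hlogA : 0 ≤ Real.log A := Real.log_nonneg (by exact_mod_cast hA1)
    have hlogA2 : k * Real.log 2 + m * Real.log 3 + Real.log A ≤ y := by
      have h11 : ((D * A : ℕ) : ℝ) ≤ Z := by exact_mod_cast hAle
      have h12 : ((D * A : ℕ) : ℝ) = 2 ^ k * 3 ^ m * A := by rw [hD]; push_cast; ring
      rw [h12] at h11
      have h13 := Real.log_le_log (by positivity) h11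
      rw [Real.log_mul (by positivity) hApos.ne', Real.log_mul (by positivity) (by positivity), Real.log_pow, Real.log_pow] at h13
      exact h13
    have hm0 : (0 : ℝ) ≤ m := by positivity
    have hlow : y / 2 ≤ Real.log (((3 ^ (S + m) * A : ℕ)) : ℝ) := by
      rw [hlog]
      have h14 : (S : ℝ) * Real.log 3 ≤ (S + m) * Real.log 3 := by
        apply mul_le_mul_of_nonneg_right _ (by linarith); linarith
      have h15 : 0.499 * (k : ℝ) * (1.5 * Real.log 2) ≤ S * Real.log 3 :=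
        mul_le_mul hSl hl3' (by linarith) (by positivity)
      have h16 : 0.499 * (k : ℝ) * (1.5 * 0.69) ≤ 0.499 * (k : ℝ) * (1.5 * Real.log 2) := by
        apply mul_le_mul_of_nonneg_left _ (by positivity); linarith
      linarith
    refine ⟨?_, ?_, ?_⟩
    · have : (m' : ℝ) ≤ ((S + m : ℕ) : ℝ) := by push_cast; linarith
      exact_mod_cast this
    · have h17 : (k : ℝ) ^ (1 / 40 : ℝ) ≤ (1.45 * y) ^ (1 / 40 : ℝ) := Real.rpow_le_rpow (by positivity) hku (by norm_num)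
      have h18 := h3 y hy3
      have h19 : (y / 2) ^ (1 / 21 : ℝ) ≤ (Real.log (((3 ^ (S + m) * A : ℕ)) : ℝ)) ^ (1 / 21 : ℝ) :=
        Real.rpow_le_rpow (by linarith) hlow (by norm_num)
      linarith
    · rw [hlog]
      have h20 : (S : ℝ) * Real.log 3 ≤ 0.501 * k * (1.6 * Real.log 2) :=
        mul_le_mul hSu hl3 (by linarith) (by positivity)
      have h21 : (k : ℝ) * 0.69 ≤ k * Real.log 2 := mul_le_mul_of_nonneg_left (by linarith) (by positivity)
      nlinarith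

end Pool.Agent.K7.H66.TD
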