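import Pool.Agent.K7.H66.TD.Base

set_option autoImplicit false

namespace Pool.Agent.K7.H66.TD

open Finset

theorem Dn_le_div (B : ℕ → Prop) (Q h y : ℕ) : Dn B (3 ^ h * Q) h y ≤ Q := by
  classical
  rw [Dn]
  calc _ ≤ (range Q).card := by
        apply Finset.card_le_card_of_injOn (fun M => M / 3 ^ h)
        · intro M hM
          simp only [Finset.coe_filter, Finset.mem_range, Set.mem_ofPred_eq, Finset.coe_range, Set.mem_Iio] at hM ⊢
          exact Nat.div_lt_of_lt_mul hM.1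
        · intro M hM M' hM' h
          simp only [Finset.coe_filter, Finset.mem_range, Set.mem_ofPred_eq] at hM hM' h
          rw [← Nat.div_add_mod M (3 ^ _), ← Nat.div_add_mod M' (3 ^ _), h, hM.2.2, hM'.2.2]
    _ = Q := card_range Q

theorem mod_eq_val {h M : ℕ} {Y : ZMod (3 ^ h)} : M % 3 ^ h = Y.val ↔ (M : ZMod (3 ^ h)) = Y := by
  constructor
  · intro h1
    apply ZMod.val_injective
    rw [ZMod.val_natCast, h1]
  · intro h1
    rw [← h1, ZMod.val_natCast]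

theorem cast_cast {h : ℕ} (M : ℕ) : (((M : ZMod (3 ^ (h + 1))).cast : ZMod (3 ^ h))) = (M : ZMod (3 ^ h)) :=
  ZMod.cast_natCast (pow_dvd_pow 3 (Nat.le_succ h)) M

theorem Dn_fiber (B : ℕ → Prop) (Z h : ℕ) (Y : ZMod (3 ^ h)) :
    ∑ Y1 ∈ (Finset.univ : Finset (ZMod (3 ^ (h + 1)))).filter (fun Y1 => (Y1.cast : ZMod (3 ^ h)) = Y),
      Dn B Z (h + 1) Y1.val = Dn B Z h Y.val := by
  classical
  have hmap : ∀ M ∈ (range Z).filter (fun M => B M ∧ M % 3 ^ h = Y.val),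
      (M : ZMod (3 ^ (h + 1))) ∈ (Finset.univ : Finset (ZMod (3 ^ (h + 1)))).filter
        (fun Y1 => (Y1.cast : ZMod (3 ^ h)) = Y) := by
    intro M hM
    simp only [Finset.mem_filter, Finset.mem_univ, true_and] at hM ⊢
    rw [cast_cast, ← mod_eq_val]
    exact hM.2.2
  have e1 : Dn B Z h Y.val = ((range Z).filter (fun M => B M ∧ M % 3 ^ h = Y.val)).card := by
    rw [Dn]
  rw [e1, Finset.card_eq_sum_card_fiberwise hmap]
  apply Finset.sum_congr rfl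
  intro Y1 hY1
  rw [Dn]
  apply congrArg
  ext M
  simp only [Finset.mem_filter, Finset.mem_range, Finset.mem_univ, true_and] at hY1 ⊢
  rw [mod_eq_val, mod_eq_val]
  constructor
  · rintro ⟨h1, h2, h3⟩
    exact ⟨⟨h1, h2, by rw [← hY1, ← h3, cast_cast]⟩, h3⟩
  · rintro ⟨⟨h1, h2, _⟩, h4⟩
    exact ⟨h1, h2, h4⟩

/-- the conditional densities -/
noncomputable def psi (B : ℕ → Prop) (n A : ℕ) (h : ℕ) (Y : ZMod (3 ^ h)) : ℝ :=
  (Dn B (3 ^ n * A) h Y.val : ℝ) / (3 ^ (n - h) * A)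

theorem psi_mem (B : ℕ → Prop) (n A h : ℕ) (hA : 1 ≤ A) (hh : h ≤ n) (Y : ZMod (3 ^ h)) :
    0 ≤ psi B n A h Y ∧ psi B n A h Y ≤ 1 := by
  have hA' : (0 : ℝ) < A := by exact_mod_cast hA
  have hp : (0 : ℝ) < 3 ^ (n - h) * A := by positivity
  refine ⟨by rw [psi]; positivity, ?_⟩
  rw [psi, div_le_one hp]
  have := Dn_le_div B (3 ^ (n - h) * A) h Y.val
  rw [← mul_assoc, ← pow_add, Nat.add_sub_cancel' hh] at this
  exact_mod_cast this

theorem psi_cons (B : ℕ → Prop) (n A h : ℕ) (hA : 1 ≤ A) (hh : h < n) (Y : ZMod (3 ^ h)) :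
    ∑ Y1 ∈ (Finset.univ : Finset (ZMod (3 ^ (h + 1)))).filter (fun Y1 => (Y1.cast : ZMod (3 ^ h)) = Y),
      psi B n A (h + 1) Y1 = 3 * psi B n A h Y := by
  have hA' : (0 : ℝ) < A := by exact_mod_cast hA
  simp only [psi]
  rw [← Finset.sum_div, ← Dn_fiber]
  push_cast
  have : (3 : ℝ) ^ (n - h) = 3 * 3 ^ (n - (h + 1)) := by
    rw [← pow_succ']; congr 1; omega
  rw [this]
  field_simp

theorem sum_range_ones (k : ℕ) (F : ℕ → ℝ) :
    ∑ x ∈ range (2 ^ k), F x = ∑ S ∈ range (k + 1), ∑ x ∈ Wd k S, F x := by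
  simp only [Wd]
  rw [Finset.sum_fiberwise_of_maps_to]
  intro x _
  have := ones_le k x
  simp; omega

/-- the set of typical numbers of odd steps -/
noncomputable def typ (k : ℕ) : Finset ℕ :=
  (range (k + 1)).filter (fun S : ℕ => ¬ (2 * Real.sqrt (k * Real.log k) ≤ |2 * (S : ℝ) - k|))

theorem card_typ (k : ℕ) : ((typ k).card : ℝ) ≤ 2 * Real.sqrt (k * Real.log k) + 1 := by
  set R := Real.sqrt (k * Real.log k) with hR
  have hR0 : 0 ≤ R := Real.sqrt_nonneg _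
  -- the numbers lie in an interval of length 2 R
  have h1 : ((typ k).card : ℤ) ≤ ⌊(k : ℝ) / 2 + R⌋ + 1 - ⌈(k : ℝ) / 2 - R⌉ ∨ (typ k).card = 0 := by
    by_cases hc : ⌊(k : ℝ) / 2 + R⌋ + 1 - ⌈(k : ℝ) / 2 - R⌉ < 0
    · right
      rw [Finset.card_eq_zero, Finset.eq_empty_iff_forall_notMem]
      intro S hS
      rw [typ, Finset.mem_filter, ← hR, not_le, abs_lt] at hS
      have a1 : ((S : ℤ) : ℝ) ≤ (k : ℝ) / 2 + R := by push_cast; linarith [hS.2.2]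
      have a2 : (k : ℝ) / 2 - R ≤ ((S : ℤ) : ℝ) := by push_cast; linarith [hS.2.1]
      have b1 := Int.le_floor.2 a1
      have b2 := Int.ceil_le.2 a2
      omega
    · left
      have hsub : (typ k).map (Nat.castEmbedding (R := ℤ)) ⊆ Finset.Icc ⌈(k : ℝ) / 2 - R⌉ ⌊(k : ℝ) / 2 + R⌋ := by
        intro z hz
        rw [Finset.mem_map] at hz
        obtain ⟨S, hS, rfl⟩ := hz
        rw [typ, Finset.mem_filter, ← hR, not_le, abs_lt] at hS
        rw [Finset.mem_Icc]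
        constructor
        · rw [Int.ceil_le]; simp; linarith [hS.2.1]
        · rw [Int.le_floor]; simp; linarith [hS.2.2]
      have := Finset.card_le_card hsub
      rw [Finset.card_map, Int.card_Icc] at this
      have h3 : ((⌊(k : ℝ) / 2 + R⌋ + 1 - ⌈(k : ℝ) / 2 - R⌉).toNat : ℤ) = ⌊(k : ℝ) / 2 + R⌋ + 1 - ⌈(k : ℝ) / 2 - R⌉ :=
        Int.toNat_of_nonneg (by omega)
      omega
  rcases h1 with h1 | h1
  · have h2 : ((typ k).card : ℝ) ≤ (⌊(k : ℝ) / 2 + R⌋ : ℝ) + 1 - (⌈(k : ℝ) / 2 - R⌉ : ℝ) := by exact_mod_cast h1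
    have h3 := Int.floor_le ((k : ℝ) / 2 + R)
    have h4 := Int.le_ceil ((k : ℝ) / 2 - R)
    linarith
  · rw [h1]; push_cast; linarith

/-- the stage inequality -/
theorem stage (hB : StBlk) (hT : StTail) {c K : ℝ} {k0 : ℕ} (hK : 0 < K)
    (hO : ∀ k : ℕ, k0 ≤ k → ∀ S m n m' : ℕ,
  |2 * (S : ℝ) - k| ≤ 2 * Real.sqrt (k * Real.log k) → (m : ℝ) ≤ (k : ℝ) ^ (1 / 20 : ℝ) → n = S + m →
  (k : ℝ) ^ (1 / 40 : ℝ) ≤ m' → m' ≤ n →
  ∀ (ρ : ZMod (3 ^ n)) (ψ : (h : ℕ) → ZMod (3 ^ h) → ℝ), (∀ h, h ≤ n → ∀ Y, 0 ≤ ψ h Y ∧ ψ h Y ≤ 1) →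
    (∀ h, h < n → ∀ Y : ZMod (3 ^ h),
      ∑ Y1 ∈ (Finset.univ : Finset (ZMod (3 ^ (h + 1)))).filter (fun Y1 => (Y1.cast : ZMod (3 ^ h)) = Y), ψ (h + 1) Y1
        = 3 * ψ h Y) →
    |∑ x ∈ Wd k S, (ψ n (cw n k ρ x) - ψ m' ((cw n k ρ x).cast : ZMod (3 ^ m')))|
      ≤ K * 2 ^ k / Real.sqrt k * (m' : ℝ) ^ (-c))
    (B : ℕ → Prop) (hBT : ∀ N, B N → B (T N)) (k m A ρ m' : ℕ) (hk : k0 ≤ k) (hk1 : 3 ≤ k) (hA : 1 ≤ A) (hρ : ρ < 3 ^ m)
    (hm : (m : ℝ) ≤ (k : ℝ) ^ (1 / 20 : ℝ)) (hm' : (k : ℝ) ^ (1 / 40 : ℝ) ≤ m')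
    (hm'S : ∀ S ∈ typ k, m' ≤ S + m) (x : ℝ) (hx0 : 0 ≤ x)
    (hx : ∀ S ∈ typ k, ∀ y, (Dn B (3 ^ (S + m) * A) m' y : ℝ) * 3 ^ m' ≤ x * (3 ^ (S + m) * A)) :
    (Dn B (2 ^ k * 3 ^ m * A) m ρ : ℝ) ≤ (x + (2 / k ^ 2 + (2 * Real.sqrt (k * Real.log k) + 1) * (K / Real.sqrt k * (m' : ℝ) ^ (-c)))) * (2 ^ k * A) := by
  have hA' : (0 : ℝ) < A := by exact_mod_cast hA
  have hkR : (3 : ℝ) ≤ k := by exact_mod_cast hk1
  have h1 : (Dn B (2 ^ k * 3 ^ m * A) m ρ : ℝ) ≤ ∑ x ∈ range (2 ^ k),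
    (Dn B (3 ^ (ones k x + m) * A) (ones k x + m) (cw (ones k x + m) k (ρ : ZMod (3 ^ (ones k x + m))) x).val : ℝ) := by
    exact_mod_cast hB B hBT k m A ρ hρ
  rw [sum_range_ones] at h1
  -- a single S
  have hS : ∀ S ∈ range (k + 1), ∑ x ∈ Wd k S,
      (Dn B (3 ^ (ones k x + m) * A) (ones k x + m) (cw (ones k x + m) k (ρ : ZMod (3 ^ (ones k x + m))) x).val : ℝ)
      = A * ∑ x ∈ Wd k S, psi B (S + m) A (S + m) (cw (S + m) k (ρ : ZMod (3 ^ (S + m))) x) := by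
    intro S _
    rw [Finset.mul_sum]
    apply Finset.sum_congr rfl
    intro x hx
    rw [mem_Wd] at hx
    rw [hx.2, psi, Nat.sub_self, pow_zero, one_mul]
    field_simp
  rw [Finset.sum_congr rfl hS, ← Finset.mul_sum] at h1
  -- typical and atypical
  have hatyp : ∑ S ∈ (range (k + 1)).filter (fun S : ℕ => 2 * Real.sqrt (k * Real.log k) ≤ |2 * (S : ℝ) - k|),
      ∑ x ∈ Wd k S, psi B (S + m) A (S + m) (cw (S + m) k (ρ : ZMod (3 ^ (S + m))) x) ≤ 2 ^ k * (2 / k ^ 2) := by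
    have h2 := hT k (2 * Real.sqrt (k * Real.log k)) (by positivity)
    refine (Finset.sum_le_sum (fun S _ => ?_)).trans (h2.trans ?_)
    · calc _ ≤ ∑ x ∈ Wd k S, (1 : ℝ) := Finset.sum_le_sum (fun x _ => (psi_mem B _ A _ hA le_rfl _).2)
        _ = (k.choose S : ℝ) := by rw [Finset.sum_const, card_Wd]; simp
    · have h3 : (2 * Real.sqrt (k * Real.log k)) ^ 2 = 4 * (k * Real.log k) := by
        rw [mul_pow, Real.sq_sqrt (mul_nonneg (by positivity) (Real.log_nonneg (by linarith)))]; norm_num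
      rw [h3]
      have h4 : -(4 * ((k : ℝ) * Real.log k)) / (2 * k) = -(2 * Real.log k) := by field_simp; ring
      rw [h4, Real.exp_neg, two_mul (Real.log k), Real.exp_add, Real.exp_log (by linarith)]
      apply le_of_eq
      field_simp
  have htyp : ∑ S ∈ typ k, ∑ x ∈ Wd k S, psi B (S + m) A (S + m) (cw (S + m) k (ρ : ZMod (3 ^ (S + m))) x)
      ≤ x * 2 ^ k + (2 * Real.sqrt (k * Real.log k) + 1) * (K * 2 ^ k / Real.sqrt k * (m' : ℝ) ^ (-c)) := by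
    have h5 : ∀ S ∈ typ k, ∑ x ∈ Wd k S, psi B (S + m) A (S + m) (cw (S + m) k (ρ : ZMod (3 ^ (S + m))) x)
        ≤ x * k.choose S + K * 2 ^ k / Real.sqrt k * (m' : ℝ) ^ (-c) := by
      intro S hS
      have hS' := hS
      rw [typ, Finset.mem_filter, not_le] at hS'
      have h6 := hO k hk S m (S + m) m' hS'.2.le hm rfl hm' (hm'S S hS) (ρ : ZMod (3 ^ (S + m))) (psi B (S + m) A)
        (fun h hh Y => psi_mem B _ A h hA hh Y) (fun h hh Y => psi_cons B _ A h hA hh Y)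
      rw [Finset.sum_sub_distrib] at h6
      have h7 := (abs_le.1 h6).2
      have h8 : ∑ x ∈ Wd k S, psi B (S + m) A m' ((cw (S + m) k (ρ : ZMod (3 ^ (S + m))) x).cast : ZMod (3 ^ m'))
          ≤ x * k.choose S := by
        calc _ ≤ ∑ _x ∈ Wd k S, x := by
              apply Finset.sum_le_sum
              intro z _
              rw [psi, div_le_iff₀ (by positivity)]
              have h9 := hx S hS (((cw (S + m) k (ρ : ZMod (3 ^ (S + m))) z).cast : ZMod (3 ^ m')).val)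
              have h10 : (3 : ℝ) ^ (S + m) = 3 ^ (S + m - m') * 3 ^ m' := by
                rw [← pow_add]; congr 1; have := hm'S S hS; omega
              rw [h10] at h9
              have h11 : (0 : ℝ) < 3 ^ m' := by positivity
              refine le_of_mul_le_mul_right ?_ h11
              linarith
          _ = x * k.choose S := by rw [Finset.sum_const, card_Wd, nsmul_eq_mul]; ring
      linarith
    refine (Finset.sum_le_sum h5).trans ?_
    rw [Finset.sum_add_distrib, ← Finset.mul_sum, Finset.sum_const, nsmul_eq_mul]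
    have h12 : ∑ S ∈ typ k, (k.choose S : ℝ) ≤ 2 ^ k := by
      calc _ ≤ ∑ S ∈ range (k + 1), (k.choose S : ℝ) :=
            Finset.sum_le_sum_of_subset_of_nonneg (Finset.filter_subset _ _) (fun _ _ _ => by positivity)
        _ = 2 ^ k := by exact_mod_cast Nat.sum_range_choose k
    have h13 := card_typ k
    have h14 : 0 ≤ K * 2 ^ k / Real.sqrt k * (m' : ℝ) ^ (-c) := by positivity
    exact add_le_add (mul_le_mul_of_nonneg_left h12 hx0) (mul_le_mul_of_nonneg_right h13 h14)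
  have hsplit := Finset.sum_filter_add_sum_filter_not (range (k + 1))
    (fun S : ℕ => 2 * Real.sqrt (k * Real.log k) ≤ |2 * (S : ℝ) - k|)
    (fun S => ∑ x ∈ Wd k S, psi B (S + m) A (S + m) (cw (S + m) k (ρ : ZMod (3 ^ (S + m))) x))
  rw [← hsplit] at h1
  refine h1.trans ?_
  have htyp' := htyp
  rw [typ] at htyp'
  calc _ ≤ (A : ℝ) * (2 ^ k * (2 / k ^ 2) + (x * 2 ^ k + (2 * Real.sqrt (k * Real.log k) + 1) * (K * 2 ^ k / Real.sqrt k * (m' : ℝ) ^ (-c)))) :=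
        mul_le_mul_of_nonneg_left (add_le_add hatyp htyp') hA'.le
    _ = _ := by ring

end Pool.Agent.K7.H66.TD
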